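import Mathlib
import Pool.Agent.H559R11.AM.Defs
import Pool.Agent.H559R11.AM.Main

/-!
# The degree of approximate majority functions is `n ^ (1/2 + o(1))`

`Dn n` is the number `D(n)` of the problem: the least degree of a real function `f` on `{-1,1}^n`
with values in `[-1,-2/3] ∪ [2/3,1]` everywhere, with `f ≥ 2/3` if `∑ x_i ≥ n/2` and `f ≤ -2/3` if
`∑ x_i ≤ -n/2`.  Degrees are taken from the Fourier (multilinear) expansion.  We prove

`√n / 8 ≤ D(n) ≤ √n · exp (C (log log (n + 16))²)`,

hence `log D(n) / log n → 1/2`.

Proof of the upper bound.  We construct total Boolean functions with bounded-error polynomials.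
Cut the variables into `2^L` blocks.  Every block gets an integer value, its density of ones in
units `U`, rounded with the help of the functions constructed for the blocks (recursion, for all
thresholds `k U`); if the density is known up to `U / 4`, only two consecutive values are possible.
Let `V` be the binary tree in which every node carries the integer part of the average of its two
children, and take the function `V ≥ K`.  On every unit cube `V` takes two consecutive values, and
the function deciding between them is a complete binary tree of AND and OR gates; its witness size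
is `2^(L/2)`, which gives polynomials of degree `O(2^(L/2))`.  The unit cube is found by sampling,
i.e. with weights which are products of Bernstein polynomials of the densities of the blocks.
So the degree `T(n; w)` with window `w` satisfies
`T(2^(L+b); w) ≤ O(4^L L² / w²) + O(L 2^(L/2)) T(2^b; w / (L + 6))`, and `L = ⌊(L + b) / 4⌋` gives
`T(n; w) ≤ √n exp(O((log log n)²)) / w²`.

Lower bound: above a maximal point with `f < 0` the function is an OR of more than `n / 4` variables.

Formalised with helpers 79, 143, 157, 246, 267, 272, 379, 473, 708, 817, 909, 930.
-/

namespace Pool.Agent.Results.MP_1e0d25_lc.DegreeSqrt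

open Filter Topology AMaj

theorem result :
    (∃ C : ℝ, 0 < C ∧ ∀ n : ℕ, 1 ≤ n →
      Real.sqrt n / 8 ≤ (Dn n : ℝ) ∧
      (Dn n : ℝ) ≤ Real.sqrt n * Real.exp (C * (Real.log (Real.log ((n : ℝ) + 16))) ^ 2)) ∧
    Tendsto (fun n : ℕ => Real.log (Dn n : ℝ) / Real.log n) atTop (𝓝 (1 / 2)) := by
  obtain ⟨C, hC, h⟩ := AMaj.main
  exact ⟨⟨C, hC, h⟩, AMaj.limit C hC (fun n => (Dn n : ℝ)) h⟩

end Pool.Agent.Results.MP_1e0d25_lc.DegreeSqrt
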